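import Mathlib

/-!
# Triples ordered by radical: the second order terms
-/

set_option autoImplicit false

namespace Pool.Agent.N521.QP

open Filter Topology

/-- logarithms are small -/
theorem ev_log {κ : ℝ} (hκ : 0 < κ) (K : ℝ) :
    ∀ᶠ H : ℝ in atTop, K * Real.log H ≤ √(24 * κ * H / Real.log H) := by
  have h1 := Real.isLittleO_pow_log_id_atTop (n := 3)
  have h2 := h1.bound (c := 24 * κ / (K ^ 2 + 1)) (by positivity)
  filter_upwards [h2, eventually_gt_atTop (1 : ℝ)] with H hH hH1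
  have hl : 0 < Real.log H := Real.log_pos hH1
  rw [Real.norm_of_nonneg (by positivity), id_eq, Real.norm_of_nonneg (by linarith)] at hH
  apply Real.le_sqrt_of_sq_le
  rw [le_div_iff₀ hl]
  rw [div_mul_eq_mul_div, le_div_iff₀ (by positivity)] at hH
  have h3 : 0 < Real.log H ^ 3 := by positivity
  nlinarith

/-- the comparison of the two logarithms -/
theorem ev_half {κ ε : ℝ} (hκ : 0 < κ) (hε : 0 < ε) : ∀ᶠ H : ℝ in atTop,
    (1 + ε / 2) * √(24 * κ * H / Real.log (H / 2)) ≤ (1 + ε) * √(24 * κ * H / Real.log H) := by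
  have h0 : Tendsto (fun H : ℝ => Real.log (H / 2)) atTop atTop :=
    Real.tendsto_log_atTop.comp (tendsto_id.atTop_div_const two_pos)
  have hd : 0 < (1 + ε) ^ 2 - (1 + ε / 2) ^ 2 := by nlinarith
  filter_upwards [h0.eventually_gt_atTop 0, eventually_gt_atTop (1 : ℝ),
    h0.eventually_ge_atTop ((1 + ε / 2) ^ 2 * Real.log 2 / ((1 + ε) ^ 2 - (1 + ε / 2) ^ 2))]
    with H hL hH1 hL2
  rw [div_le_iff₀ hd] at hL2
  have hl : 0 < Real.log H := Real.log_pos hH1
  have hlog : Real.log H = Real.log (H / 2) + Real.log 2 := by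
    rw [Real.log_div (by linarith) two_ne_zero]
    ring
  have e1 : (1 + ε / 2) * √(24 * κ * H / Real.log (H / 2)) =
      √((1 + ε / 2) ^ 2 * (24 * κ * H / Real.log (H / 2))) := by
    rw [Real.sqrt_mul (by positivity), Real.sqrt_sq (by positivity)]
  have e2 : (1 + ε) * √(24 * κ * H / Real.log H) =
      √((1 + ε) ^ 2 * (24 * κ * H / Real.log H)) := by
    rw [Real.sqrt_mul (by positivity), Real.sqrt_sq (by positivity)]
  rw [e1, e2]
  apply Real.sqrt_le_sqrt
  rw [← mul_div_assoc, ← mul_div_assoc, div_le_div_iff₀ hL hl]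
  have h3 : (1 + ε / 2) ^ 2 * Real.log H ≤ (1 + ε) ^ 2 * Real.log (H / 2) := by
    rw [hlog]
    linarith
  have h4 : 0 ≤ 24 * κ * H := by positivity
  calc (1 + ε / 2) ^ 2 * (24 * κ * H) * Real.log H =
      (24 * κ * H) * ((1 + ε / 2) ^ 2 * Real.log H) := by ring
    _ ≤ (24 * κ * H) * ((1 + ε) ^ 2 * Real.log (H / 2)) := mul_le_mul_of_nonneg_left h3 h4
    _ = _ := by ring

/-- square roots -/
theorem sqrt_add_le' {a b : ℝ} (ha : 0 < a) (hb : 0 ≤ b) : √(a + b) ≤ √a + b / (2 * √a) := by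
  have h1 : 0 < √a := Real.sqrt_pos.2 ha
  apply Real.sqrt_le_iff.2
  refine ⟨by positivity, ?_⟩
  have h2 : √a ^ 2 = a := Real.sq_sqrt ha.le
  have h3 : (√a + b / (2 * √a)) ^ 2 = √a ^ 2 + b + (b / (2 * √a)) ^ 2 := by
    field_simp
    ring
  rw [h3, h2]
  nlinarith [sq_nonneg (b / (2 * √a))]

/-- **The exponents.** -/
theorem ev_main {κ ε : ℝ} (hκ : 0 < κ) (hκ1 : κ < 2 / 3) (hε : 0 < ε) (hε1 : ε ≤ 1) :
    ∀ᶠ H : ℝ in atTop, ∀ m G : ℝ, H / 2 ≤ m →
      G = max (κ * m) (3 * m - (3 - κ) * H) - 4 →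
      2 * m - G + (1 + ε / 2) * √(24 * G / Real.log m) ≤
        (2 - κ) * H + 4 + (1 + ε) * √(24 * κ * H / Real.log H) := by
  have h0 : Tendsto (fun H : ℝ => Real.log (H / 2)) atTop atTop :=
    Real.tendsto_log_atTop.comp (tendsto_id.atTop_div_const two_pos)
  have h1 : Tendsto (fun H : ℝ => 24 * κ * H * Real.log (H / 2)) atTop atTop :=
    (tendsto_id.const_mul_atTop (by positivity)).atTop_mul_atTop₀ h0
  filter_upwards [ev_half hκ hε, h0.eventually_gt_atTop 0, h1.eventually_ge_atTop (72 ^ 2),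
    eventually_gt_atTop (4 : ℝ)] with H hH hL hb hH4 m G hm hG
  set L := Real.log (H / 2) with hLdef
  have hLm : L ≤ Real.log m := Real.log_le_log (by linarith) hm
  have hlm : 0 < Real.log m := lt_of_lt_of_le hL hLm
  set θ := m - H with hθ
  have e1 : κ * m = κ * H + κ * θ := by rw [hθ]; ring
  have e2 : 3 * m - (3 - κ) * H = κ * H + 3 * θ := by rw [hθ]; ring
  have hGu : G ≤ κ * H + 3 * |θ| := by
    rw [hG, e1, e2]
    have h2 := le_abs_self θ
    have h3 := neg_abs_le θ
    have h4 : κ * θ ≤ 3 * |θ| := by nlinarith [abs_nonneg θ]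
    have h5 : max (κ * H + κ * θ) (κ * H + 3 * θ) ≤ κ * H + 3 * |θ| :=
      max_le (by linarith) (by linarith)
    linarith
  have hmain : 2 * m - G ≤ (2 - κ) * H + 4 - |θ| := by
    rw [hG, e1, e2]
    rcases le_total 0 θ with h | h
    · rw [abs_of_nonneg h]
      have := le_max_right (κ * H + κ * θ) (κ * H + 3 * θ)
      have e3 : m = H + θ := by rw [hθ]; ring
      rw [e3]
      linarith
    · rw [abs_of_nonpos h]
      have := le_max_left (κ * H + κ * θ) (κ * H + 3 * θ)
      have e3 : m = H + θ := by rw [hθ]; ring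
      rw [e3]
      nlinarith
  have hk : 0 < 24 * κ * H / L := by positivity
  have hs : √(24 * G / Real.log m) ≤ √(24 * κ * H / L) + |θ| / 2 := by
    have h2 : 24 * G / Real.log m ≤ 24 * κ * H / L + 72 * |θ| / L := by
      rw [← add_div]
      have h3 : 24 * G ≤ 24 * κ * H + 72 * |θ| := by linarith
      have h4 : 0 ≤ 24 * κ * H + 72 * |θ| := by positivity
      calc 24 * G / Real.log m ≤ (24 * κ * H + 72 * |θ|) / Real.log m := by gcongr
        _ ≤ (24 * κ * H + 72 * |θ|) / L := by gcongr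
    refine (Real.sqrt_le_sqrt h2).trans ((sqrt_add_le' hk (by positivity)).trans ?_)
    have h5 : 72 * |θ| / L / (2 * √(24 * κ * H / L)) ≤ |θ| / 2 := by
      have h6 : 0 < √(24 * κ * H / L) := Real.sqrt_pos.2 hk
      rw [div_div, div_le_div_iff₀ (by positivity) two_pos]
      have h7 : 72 ≤ L * √(24 * κ * H / L) := by
        have h8 : L * √(24 * κ * H / L) = √(24 * κ * H * L) := by
          have h9 : 24 * κ * H * L = L ^ 2 * (24 * κ * H / L) := by
            field_simp
          rw [h9, Real.sqrt_mul (by positivity), Real.sqrt_sq hL.le]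
        rw [h8]
        exact Real.le_sqrt_of_sq_le hb
      nlinarith [abs_nonneg θ]
    linarith
  have h9 := Real.sqrt_nonneg (24 * κ * H / L)
  have h10 := abs_nonneg θ
  calc 2 * m - G + (1 + ε / 2) * √(24 * G / Real.log m)
      ≤ ((2 - κ) * H + 4 - |θ|) + (1 + ε / 2) * (√(24 * κ * H / L) + |θ| / 2) := by
        gcongr
    _ ≤ (2 - κ) * H + 4 + (1 + ε / 2) * √(24 * κ * H / L) := by nlinarith
    _ ≤ _ := by linarith

/-- the other factors -/
theorem ev_fac {κ ε C e θ : ℝ} (hκ : 0 < κ) (hε : 0 < ε) (he : θ < e) :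
    ∀ᶠ H : ℝ in atTop, ∀ N : ℝ,
      N ≤ (2 * H + 1) * Real.exp (e * H + 4 + (1 + ε / 2) * √(24 * κ * H / Real.log H)) +
        C * Real.exp (θ * H) →
      N ≤ Real.exp (e * H + (1 + ε) * √(24 * κ * H / Real.log H)) := by
  have h1 : Tendsto (fun H : ℝ => Real.exp ((e - θ) * H)) atTop atTop :=
    Real.tendsto_exp_atTop.comp (tendsto_id.const_mul_atTop (by linarith))
  filter_upwards [ev_log hκ (6 / ε), h1.eventually_ge_atTop C, eventually_ge_atTop (100 : ℝ)]
    with H hH hC hH2 N hN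
  refine hN.trans ?_
  set s := √(24 * κ * H / Real.log H) with hs
  have hs0 : 0 ≤ s := Real.sqrt_nonneg _
  have hH0 : (0 : ℝ) < H := by linarith
  have h2 : H ^ 3 ≤ Real.exp (ε / 2 * s) := by
    rw [← Real.exp_log (by positivity : 0 < H ^ 3), Real.log_pow]
    apply Real.exp_le_exp.2
    have h3 : 6 / ε * Real.log H * (ε / 2) ≤ s * (ε / 2) := by gcongr
    have h4 : 6 / ε * Real.log H * (ε / 2) = 3 * Real.log H := by
      field_simp
      ring
    push_cast
    linarith
  have h5 : C * Real.exp (θ * H) ≤ Real.exp (e * H) := by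
    have h6 : Real.exp (e * H) = Real.exp ((e - θ) * H) * Real.exp (θ * H) := by
      rw [← Real.exp_add]
      congr 1
      ring
    rw [h6]
    gcongr
  have h7 : Real.exp 4 ≤ 55 := by
    have h8 : Real.exp 4 = Real.exp 1 ^ 4 := by
      rw [← Real.exp_nat_mul]
      norm_num
    rw [h8]
    have h9 := Real.exp_one_lt_d9
    have h10 : Real.exp 1 ^ 4 ≤ 2.7182818286 ^ 4 := by gcongr
    refine h10.trans ?_
    norm_num
  have h11 : Real.exp (e * H + 4 + (1 + ε / 2) * s) =
      Real.exp 4 * Real.exp (e * H + (1 + ε / 2) * s) := by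
    rw [← Real.exp_add]
    congr 1
    ring
  have h12 : Real.exp (e * H) ≤ Real.exp (e * H + (1 + ε / 2) * s) := by
    apply Real.exp_le_exp.2
    have : 0 ≤ (1 + ε / 2) * s := by positivity
    linarith
  have h13 : Real.exp (e * H + (1 + ε) * s) =
      Real.exp (e * H + (1 + ε / 2) * s) * Real.exp (ε / 2 * s) := by
    rw [← Real.exp_add]
    congr 1
    ring
  rw [h11, h13]
  set E := Real.exp (e * H + (1 + ε / 2) * s) with hE
  have hE0 : 0 < E := Real.exp_pos _
  calc (2 * H + 1) * (Real.exp 4 * E) + C * Real.exp (θ * H)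
      ≤ (2 * H + 1) * (55 * E) + E := by
        gcongr
        exact h5.trans h12
    _ = E * (110 * H + 56) := by ring
    _ ≤ E * H ^ 3 := by
        apply mul_le_mul_of_nonneg_left _ hE0.le
        nlinarith [mul_pos hH0 hH0]
    _ ≤ E * Real.exp (ε / 2 * s) := by gcongr

/-- the loss of a constant factor in the lower bound -/
theorem ev_low {κ ε : ℝ} (hκ : 0 < κ) (hε : 0 < ε) (C : ℝ) :
    ∀ᶠ H : ℝ in atTop, C ≤ ε * √(24 * κ * H / Real.log H) := by
  have h0 := Real.tendsto_log_atTop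
  filter_upwards [ev_log hκ 1, h0.eventually_ge_atTop (C / ε)] with H hH hC
  rw [div_le_iff₀ hε] at hC
  nlinarith

end Pool.Agent.N521.QP
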