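import Pool.Agent.W221.ABC.Main7

/-!
# Triples ordered by radical: the range where `c` is not close to a small power of the radical
-/

set_option autoImplicit false

namespace Pool.Agent.N521.QP

open Pool.Agent.H785R2.ABC (IsABCTriple rad)
open Pool.Agent.H705R2.ABC (StmtCount)
open Pool.Agent.W221.ABC7

theorem Fx_le {l : ℝ} (h : l ≤ 7 / 3) : Fx l ≤ 4 * l / 7 := by
  unfold Fx
  split_ifs <;> linarith

theorem cnt {l : ℝ} (h0 : 0 < l) (h : l ≤ 7 / 3) : StmtCount l (4 * l / 7) :=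
  count_mono (count_Fx l h0) (Fx_le h)

/-- `c ≤ X ^ T` and `rad ≤ c ^ lam` -/
def S (T lam : ℝ) (X : ℝ) : Set (ℕ × ℕ × ℕ) :=
  {t | IsABCTriple t.1 t.2.1 t.2.2 ∧ (t.2.2 : ℝ) ≤ X ^ T ∧
    (rad (t.1 * t.2.1 * t.2.2) : ℝ) ≤ (t.2.2 : ℝ) ^ lam}

/-- `X ^ s ≤ c ≤ X ^ T`, `rad ≤ X` -/
def P (s T : ℝ) (X : ℝ) : Set (ℕ × ℕ × ℕ) :=
  {t | IsABCTriple t.1 t.2.1 t.2.2 ∧ (t.2.2 : ℝ) ≤ X ^ T ∧ X ^ s ≤ (t.2.2 : ℝ) ∧
    (rad (t.1 * t.2.1 * t.2.2) : ℝ) ≤ X}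

theorem fin_aux (Z : Set (ℕ × ℕ × ℕ)) (N : ℕ)
    (h : ∀ t ∈ Z, t.1 + t.2.1 = t.2.2 ∧ t.2.2 ≤ N) : Z.Finite := by
  refine Set.Finite.subset (Finset.finite_toSet
      ((Finset.range (N + 1)) ×ˢ (Finset.range (N + 1)) ×ˢ (Finset.range (N + 1)))) ?_
  rintro ⟨a, b, c⟩ ht
  obtain ⟨h4, h6⟩ := h _ ht
  simp only at h4 h6
  simp only [Finset.coe_product, Set.mem_prod, Finset.coe_range, Set.mem_Iio]
  omega

theorem S_fin (T lam : ℝ) (X : ℝ) : (S T lam X).Finite := by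
  refine fin_aux _ ⌊X ^ T⌋₊ ?_
  rintro t ⟨h1, h2, h3⟩
  exact ⟨h1.2.2.2.1, Nat.le_floor h2⟩

theorem P_fin (s T : ℝ) (X : ℝ) : (P s T X).Finite := by
  refine fin_aux _ ⌊X ^ T⌋₊ ?_
  rintro t ⟨h1, h2, h3⟩
  exact ⟨h1.2.2.2.1, Nat.le_floor h2⟩

theorem S_card (ε t : ℝ) (hε : 0 < ε) (ht : 3 / 7 ≤ t) : ∃ C : ℝ, 0 ≤ C ∧ ∀ X : ℝ, 1 ≤ X →
    ((S (t + ε / 4) (1 / t) X).ncard : ℝ) ≤ C * X ^ (4 / 7 + ε : ℝ) := by
  have ht0 : 0 < t := by linarith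
  have hlam : 1 / t ≤ 7 / 3 := by
    rw [div_le_div_iff₀ ht0 (by norm_num)]
    linarith
  have hd : 0 < t + ε / 4 := by linarith
  obtain ⟨C, hC⟩ := cnt (l := 1 / t) (by positivity) hlam (ε / (4 * (t + ε / 4))) (by positivity)
  refine ⟨|C|, abs_nonneg C, fun X hX1 => ?_⟩
  have hX0 : (0 : ℝ) < X := by linarith
  set N : ℕ := ⌊X ^ (t + ε / 4)⌋₊ with hN
  have hN1 : 1 ≤ N := Nat.le_floor (by
    rw [Nat.cast_one]
    exact Real.one_le_rpow hX1 hd.le)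
  have hNX : (N : ℝ) ≤ X ^ (t + ε / 4) := Nat.floor_le (by positivity)
  have h1 := hC N hN1
  have hset : S (t + ε / 4) (1 / t) X = {u : ℕ × ℕ × ℕ | IsABCTriple u.1 u.2.1 u.2.2 ∧
      u.2.2 ≤ N ∧ (rad (u.1 * u.2.1 * u.2.2) : ℝ) ≤ (u.2.2 : ℝ) ^ (1 / t)} := by
    ext u
    constructor
    · rintro ⟨a1, a2, a3⟩
      exact ⟨a1, Nat.le_floor a2, a3⟩
    · rintro ⟨a1, a2, a3⟩
      refine ⟨a1, le_trans ?_ hNX, a3⟩
      exact_mod_cast a2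
  rw [hset]
  refine h1.trans ?_
  have he : 0 ≤ 4 * (1 / t) / 7 + ε / (4 * (t + ε / 4)) := by positivity
  have h2 : (N : ℝ) ^ (4 * (1 / t) / 7 + ε / (4 * (t + ε / 4))) ≤
      (X ^ (t + ε / 4)) ^ (4 * (1 / t) / 7 + ε / (4 * (t + ε / 4))) :=
    Real.rpow_le_rpow (Nat.cast_nonneg _) hNX he
  rw [← Real.rpow_mul hX0.le] at h2
  have h3 : (t + ε / 4) * (4 * (1 / t) / 7 + ε / (4 * (t + ε / 4))) ≤ 4 / 7 + ε := by
    have e1 : (t + ε / 4) * (4 * (1 / t) / 7 + ε / (4 * (t + ε / 4))) =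
        4 / 7 + (ε / 7) * (1 / t) + ε / 4 := by
      field_simp
    rw [e1]
    have e2 : (ε / 7) * (1 / t) ≤ (ε / 7) * (7 / 3) :=
      mul_le_mul_of_nonneg_left hlam (by positivity)
    linarith
  have h4 : X ^ ((t + ε / 4) * (4 * (1 / t) / 7 + ε / (4 * (t + ε / 4)))) ≤
      X ^ (4 / 7 + ε : ℝ) := Real.rpow_le_rpow_of_exponent_le hX1 h3
  have h5 : 0 ≤ (N : ℝ) ^ (4 * (1 / t) / 7 + ε / (4 * (t + ε / 4))) := by positivity
  calc C * (N : ℝ) ^ (4 * (1 / t) / 7 + ε / (4 * (t + ε / 4)))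
      ≤ |C| * (N : ℝ) ^ (4 * (1 / t) / 7 + ε / (4 * (t + ε / 4))) :=
        mul_le_mul_of_nonneg_right (le_abs_self C) h5
    _ ≤ |C| * X ^ (4 / 7 + ε : ℝ) :=
        mul_le_mul_of_nonneg_left (h2.trans h4) (abs_nonneg C)

theorem P_card (ε : ℝ) (hε : 0 < ε) (J : ℕ) : ∃ C : ℝ, 0 ≤ C ∧ ∀ X : ℝ, 1 < X →
    ((P (25 / 56) (25 / 56 + J * (ε / 4)) X).ncard : ℝ) ≤ C * X ^ (4 / 7 + ε : ℝ) := by
  induction J with
  | zero =>
    obtain ⟨C, hC0, hC⟩ := S_card ε (25 / 56) hε (by norm_num)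
    refine ⟨C, hC0, fun X hX => le_trans ?_ (hC X hX.le)⟩
    have hX0 : (0 : ℝ) < X := by linarith
    have hsub : P (25 / 56) (25 / 56 + (0 : ℕ) * (ε / 4)) X ⊆
        S (25 / 56 + ε / 4) (1 / (25 / 56)) X := by
      rintro t ⟨h1, h2, h3, h4⟩
      refine ⟨h1, h2.trans (Real.rpow_le_rpow_of_exponent_le hX.le ?_), ?_⟩
      · rw [Nat.cast_zero, zero_mul]
        linarith
      · refine h4.trans ?_
        have h6 : (X ^ (25 / 56 : ℝ)) ^ (1 / (25 / 56) : ℝ) ≤ (t.2.2 : ℝ) ^ (1 / (25 / 56) : ℝ) :=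
          Real.rpow_le_rpow (by positivity) h3 (by positivity)
        rw [← Real.rpow_mul hX0.le, mul_one_div_cancel (by norm_num), Real.rpow_one] at h6
        exact h6
    exact_mod_cast Set.ncard_le_ncard hsub (S_fin _ _ _)
  | succ J ih =>
    obtain ⟨C, hC0, hC⟩ := ih
    have ht : (3 / 7 : ℝ) ≤ 25 / 56 + J * (ε / 4) := by
      have : 0 ≤ (J : ℝ) * (ε / 4) := by positivity
      linarith
    obtain ⟨C', hC0', hC'⟩ := S_card ε (25 / 56 + J * (ε / 4)) hε ht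
    refine ⟨C + C', by positivity, fun X hX => ?_⟩
    have hX0 : (0 : ℝ) < X := by linarith
    set t : ℝ := 25 / 56 + J * (ε / 4) with htdef
    have ht0 : 0 < t := by linarith
    have hsub : P (25 / 56) (25 / 56 + ((J + 1 : ℕ) : ℝ) * (ε / 4)) X ⊆
        P (25 / 56) t X ∪ S (t + ε / 4) (1 / t) X := by
      rintro u ⟨h1, h2, h3, h4⟩
      rcases le_or_gt ((u.2.2 : ℝ)) (X ^ t) with h | h
      · exact Or.inl ⟨h1, h, h3, h4⟩
      · right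
        refine ⟨h1, h2.trans (le_of_eq ?_), ?_⟩
        · congr 1
          rw [htdef]
          push_cast
          ring
        · refine h4.trans ?_
          have h6 : (X ^ t) ^ (1 / t) ≤ (u.2.2 : ℝ) ^ (1 / t) :=
            Real.rpow_le_rpow (by positivity) h.le (by positivity)
          rw [← Real.rpow_mul hX0.le, mul_one_div_cancel ht0.ne', Real.rpow_one] at h6
          exact h6
    have h7 : ((P (25 / 56) (25 / 56 + ((J + 1 : ℕ) : ℝ) * (ε / 4)) X).ncard : ℝ) ≤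
        ((P (25 / 56) t X).ncard : ℝ) + ((S (t + ε / 4) (1 / t) X).ncard : ℝ) := by
      have := (Set.ncard_le_ncard hsub ((P_fin _ _ _).union (S_fin _ _ _))).trans
        (Set.ncard_union_le _ _)
      exact_mod_cast this
    refine h7.trans ?_
    rw [add_mul]
    exact add_le_add (hC X hX) (hC' X hX.le)

/-- **The large triples.** -/
theorem big (A ε : ℝ) (hε : 0 < ε) : ∃ C : ℝ, 0 ≤ C ∧ ∀ X : ℝ, 1 < X →
    ((P (25 / 56) A X).ncard : ℝ) ≤ C * X ^ (4 / 7 + ε : ℝ) := by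
  obtain ⟨J, hJ⟩ := exists_nat_ge (A / (ε / 4))
  rw [div_le_iff₀ (by positivity)] at hJ
  obtain ⟨C, hC0, hC⟩ := P_card ε hε J
  refine ⟨C, hC0, fun X hX => le_trans ?_ (hC X hX)⟩
  have hsub : P (25 / 56) A X ⊆ P (25 / 56) (25 / 56 + J * (ε / 4)) X := by
    rintro t ⟨h1, h2, h3, h4⟩
    exact ⟨h1, h2.trans (Real.rpow_le_rpow_of_exponent_le hX.le (by linarith)), h3, h4⟩
  exact_mod_cast Set.ncard_le_ncard hsub (P_fin _ _ _)

end Pool.Agent.N521.QP
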