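import Pool.Agent.N906.QP.Stm
import Pool.Agent.N954.KG_BASQ
import Pool.Agent.R365.QP.Ht

/-!
# Triples ordered by radical: the dictionary between abc triples and rational points
-/

set_option autoImplicit false

namespace Pool.Agent.N521.QP

open NumberField IsDedekindDomain Finset Pool.Agent.H691R3
open Pool.Agent.W223.AK (Pr Idl len rl Pt L ht)

open Rat.HeightOneSpectrum in
/-- the prime number below a prime ideal -/
noncomputable def pr (v : HeightOneSpectrum (𝓞 ℚ)) : ℕ := natGenerator v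

lemma pr_prime (v : HeightOneSpectrum (𝓞 ℚ)) : (pr v).Prime :=
  Rat.HeightOneSpectrum.prime_natGenerator v

lemma pr_inj : Function.Injective pr := by
  intro v w h
  apply (Rat.HeightOneSpectrum.primesEquiv (R := 𝓞 ℚ)).injective
  exact Subtype.ext h

lemma pr_surj {p : ℕ} (hp : p.Prime) : ∃ v, pr v = p := by
  obtain ⟨v, hv⟩ := (Rat.HeightOneSpectrum.primesEquiv (R := 𝓞 ℚ)).surjective ⟨p, hp⟩
  exact ⟨v, congrArg Subtype.val hv⟩

lemma dvd_iff (v : HeightOneSpectrum (𝓞 ℚ)) (n : ℕ) :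
    pr v ∣ n ↔ (n : 𝓞 ℚ) ∈ v.asIdeal := by
  unfold pr
  rw [Rat.HeightOneSpectrum.natGenerator_dvd_iff,
    ← map_natCast (Rat.IsIntegralClosure.intEquiv (𝓞 ℚ)) n, Ideal.apply_mem_of_equiv_iff]

lemma Nv_eq (v : HeightOneSpectrum (𝓞 ℚ)) : Nv v = (pr v : ℝ) := by
  have h1 : ((pr v : ℕ) : 𝓞 ℚ) ∈ v.asIdeal := (dvd_iff v (pr v)).1 dvd_rfl
  have h2 : Ideal.absNorm v.asIdeal ∣ Ideal.absNorm (Ideal.span {((pr v : ℕ) : 𝓞 ℚ)}) :=
    Ideal.absNorm_dvd_absNorm_of_le ((Ideal.span_singleton_le_iff_mem _).mpr h1)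
  rw [Ideal.absNorm_span_natCast, RingOfIntegers.rank, Module.finrank_self, pow_one] at h2
  have h3 : (2 : ℝ) ≤ Nv v := two_le_Nv v
  unfold Nv at h3 ⊢
  rcases (Nat.dvd_prime (pr_prime v)).1 h2 with h4 | h4
  · rw [h4] at h3
    norm_num at h3
  · exact_mod_cast h4

lemma fv_int_le (v : HeightOneSpectrum (𝓞 ℚ)) (z : ℤ) : fv v (z : ℚ) ≤ 1 := by
  have h := FinitePlace.norm_le_one ℚ v (z : 𝓞 ℚ)
  rw [fv_apply]
  simpa using h

lemma fv_lt_iff (v : HeightOneSpectrum (𝓞 ℚ)) (z : ℤ) :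
    fv v (z : ℚ) < 1 ↔ (z : 𝓞 ℚ) ∈ v.asIdeal := by
  rw [fv_apply]
  have h := FinitePlace.norm_lt_one_iff_mem ℚ v (z : 𝓞 ℚ)
  simpa using h

lemma mem_iff (v : HeightOneSpectrum (𝓞 ℚ)) (z : ℤ) :
    (pr v : ℤ) ∣ z ↔ (z : 𝓞 ℚ) ∈ v.asIdeal := by
  rw [Int.natCast_dvd, dvd_iff]
  rcases Int.natAbs_eq z with h2 | h2
  · constructor
    · intro h; rw [h2]; simpa using h
    · intro h; rw [h2] at h; simpa using h
  · constructor
    · intro h; rw [h2]; simpa using h
    · intro h; rw [h2] at h; simpa using h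

lemma fv_lt (v : HeightOneSpectrum (𝓞 ℚ)) {z : ℤ} (h : (pr v : ℤ) ∣ z) : fv v (z : ℚ) < 1 :=
  (fv_lt_iff v z).2 ((mem_iff v z).1 h)

lemma fv_one (v : HeightOneSpectrum (𝓞 ℚ)) {z : ℤ} (h : ¬ (pr v : ℤ) ∣ z) :
    fv v (z : ℚ) = 1 := by
  by_contra hc
  exact h ((mem_iff v z).2 ((fv_lt_iff v z).1 (lt_of_le_of_ne (fv_int_le v z) hc)))

theorem hr_rat (x : ℚ) : hr (aff x) = Real.log ((max x.num.natAbs x.den : ℕ) : ℝ) := by
  rw [Pool.Agent.R365.QP.hr_aff, ← Height.logHeight₁_eq_logHeight, Rat.logHeight₁_eq_log_max]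

/-- the three points `0, ∞, -1` -/
def al : Fin 3 → ℚ × ℚ := ![(0, 1), (1, 0), (-1, 1)]

theorem Al_al : Pool.Agent.N906.KG.Al al := by
  constructor
  · intro l
    fin_cases l <;> simp [al, Prod.ext_iff]
  · intro i j hij
    fin_cases i <;> fin_cases j <;> simp_all [al]

theorem Gd_al : Pool.Agent.N906.KG.Gd ∅ al := by
  intro v _
  constructor
  · intro l
    fin_cases l <;> simp [al]
  · intro i j hij
    fin_cases i <;> fin_cases j <;> simp_all [al]

theorem of_al {x : ℚ} (h0 : x ≠ 0) (h1 : x + 1 ≠ 0) : Pool.Agent.N906.KG.Of al x := by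
  intro l
  fin_cases l
  · simpa [al] using h0
  · simp [al]
  · simpa [al] using h1

/-- the radical -/
def rd (n : ℕ) : ℕ := ∏ p ∈ n.primeFactors, p

theorem rd_pos (n : ℕ) : 0 < rd n :=
  Finset.prod_pos fun _ hp => (Nat.prime_of_mem_primeFactors hp).pos

theorem log_rd (n : ℕ) : Real.log (rd n : ℝ) = ∑ p ∈ n.primeFactors, Real.log (p : ℝ) := by
  unfold rd
  rw [Nat.cast_prod, Real.log_prod fun p hp => by
    exact_mod_cast (Nat.prime_of_mem_primeFactors hp).ne_zero]

/-- the exponents vanish outside the primes dividing `abc` -/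
theorem exp_zero {a b : ℕ} (hb : 0 < b) {P : Fin 3 → Idl ℚ}
    (hP : Pool.Agent.N906.KG.IsP ∅ al ((a : ℚ) / b) P) {v : Pr ℚ}
    (hv : ¬ pr v ∣ a * b * (a + b)) (l : Fin 3) : P l v = 0 := by
  have ha1 : fv v (a : ℚ) = 1 := by
    have h1 : ¬ (pr v : ℤ) ∣ (a : ℤ) := fun h => hv (by
      have := Int.natCast_dvd_natCast.1 h
      exact (this.mul_right b).mul_right (a + b))
    exact_mod_cast fv_one v h1
  have hb1 : fv v (b : ℚ) = 1 := by
    have h1 : ¬ (pr v : ℤ) ∣ (b : ℤ) := fun h => hv (by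
      have := Int.natCast_dvd_natCast.1 h
      exact (this.mul_left a).mul_right (a + b))
    exact_mod_cast fv_one v h1
  have hc1 : fv v ((a : ℚ) + b) = 1 := by
    have h1 : ¬ (pr v : ℤ) ∣ ((a + b : ℕ) : ℤ) := fun h => hv (by
      have := Int.natCast_dvd_natCast.1 h
      exact this.mul_left (a * b))
    have h2 := fv_one v h1
    push_cast at h2
    exact h2
  have hb0 : (b : ℚ) ≠ 0 := by exact_mod_cast hb.ne'
  have hx : fv v ((a : ℚ) / b) = 1 := by rw [map_div₀, ha1, hb1, div_one]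
  have hx1 : fv v ((a : ℚ) / b + 1) = 1 := by
    have : (a : ℚ) / b + 1 = (a + b) / b := by field_simp
    rw [this, map_div₀, hc1, hb1, div_one]
  have h1 := hP.2 l v (by simp)
  have h2 : lam (Sum.inr v : Pl ℚ) (aff ((a : ℚ) / b)) (al l) = 0 := by
    have h3 : lam (Sum.inr v : Pl ℚ) (aff ((a : ℚ) / b)) (al l) =
      Real.log (max (fv v ((a : ℚ) / b)) (fv v 1) * max (fv v (al l).1) (fv v (al l).2) /
        fv v ((a : ℚ) / b * (al l).2 - 1 * (al l).1)) := rfl
    rw [h3, hx]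
    fin_cases l
    · simp [al, hx]
    · simp [al]
    · simp [al, hx1]
  rw [h2] at h1
  have h3 : Real.log (Nv v) ≠ 0 := (log_Nv_pos v).ne'
  have h4 : (P l v : ℝ) = 0 := by
    rcases mul_eq_zero.1 h1.symm with h | h
    · exact h
    · exact absurd h h3
  exact_mod_cast h4

theorem tr_le {a b : ℕ} (ha : 0 < a) (hb : 0 < b) {P : Fin 3 → Idl ℚ}
    (hP : Pool.Agent.N906.KG.IsP ∅ al ((a : ℚ) / b) P) :
    Pool.Agent.N906.KG.tr P ≤ Real.log (rd (a * b * (a + b)) : ℝ) := by
  classical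
  rw [log_rd]
  unfold Pool.Agent.N906.KG.tr
  have h1 : ∀ v ∈ Pool.Agent.N906.KG.sp P, Real.log (Nv v) = Real.log (pr v : ℝ) :=
    fun v _ => by rw [Nv_eq]
  rw [Finset.sum_congr rfl h1]
  have h2 : ∑ v ∈ Pool.Agent.N906.KG.sp P, Real.log (pr v : ℝ) =
      ∑ p ∈ (Pool.Agent.N906.KG.sp P).image pr, Real.log (p : ℝ) := by
    rw [Finset.sum_image fun a _ b _ h => pr_inj h]
  rw [h2]
  refine Finset.sum_le_sum_of_subset_of_nonneg ?_ fun p hp _ => ?_
  · intro p hp
    obtain ⟨v, hv, rfl⟩ := Finset.mem_image.1 hp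
    rw [Nat.mem_primeFactors]
    refine ⟨pr_prime v, ?_, by positivity⟩
    by_contra hcon
    unfold Pool.Agent.N906.KG.sp at hv
    obtain ⟨l, -, hl⟩ := Finset.mem_biUnion.1 hv
    exact (Finsupp.mem_support_iff.1 hl) (exp_zero hb hP hcon l)
  · exact Real.log_nonneg (by exact_mod_cast (Nat.prime_of_mem_primeFactors hp).one_lt.le)

/-- the point of a triple -/
theorem point {a b : ℕ} (ha : 0 < a) (hb : 0 < b) (hab : Nat.Coprime a b) :
    Pool.Agent.N906.KG.Of al ((a : ℚ) / b) ∧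
      hr (aff ((a : ℚ) / b)) = Real.log ((max a b : ℕ) : ℝ) ∧
      ∃ P, Pool.Agent.N906.KG.IsP ∅ al ((a : ℚ) / b) P ∧
        Pool.Agent.N906.KG.tr P ≤ Real.log (rd (a * b * (a + b)) : ℝ) := by
  have ha0 : (0 : ℚ) < a := by exact_mod_cast ha
  have hb0 : (0 : ℚ) < b := by exact_mod_cast hb
  have hx : (0 : ℚ) < (a : ℚ) / b := by positivity
  have hof := of_al hx.ne' (by positivity)
  refine ⟨hof, ?_, ?_⟩
  · have h1 : ((a : ℤ) : ℚ) / ((b : ℤ) : ℚ) = (a : ℚ) / b := by push_cast; rfl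
    have hc : Nat.Coprime (a : ℤ).natAbs (b : ℤ).natAbs := by simpa using hab
    have h2 := Rat.num_div_eq_of_coprime (a := (a : ℤ)) (b := (b : ℤ)) (by exact_mod_cast hb) hc
    have h3 := Rat.den_div_eq_of_coprime (a := (a : ℤ)) (b := (b : ℤ)) (by exact_mod_cast hb) hc
    rw [h1] at h2 h3
    rw [hr_rat, h2]
    have h4 : ((a : ℚ) / b).den = b := by exact_mod_cast h3
    rw [h4, Int.natAbs_natCast]
  · obtain ⟨P, hP⟩ := Pool.Agent.N954.KG.isP_exists Al_al ∅ hof
    exact ⟨P, hP, tr_le ha hb hP⟩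

theorem point_inj {a b a' b' : ℕ} (hb : 0 < b) (hb' : 0 < b') (h : Nat.Coprime a b)
    (h' : Nat.Coprime a' b') (he : (a : ℚ) / b = (a' : ℚ) / b') : a = a' ∧ b = b' := by
  have hb0 : (b : ℚ) ≠ 0 := by exact_mod_cast hb.ne'
  have hb0' : (b' : ℚ) ≠ 0 := by exact_mod_cast hb'.ne'
  rw [div_eq_div_iff hb0 hb0'] at he
  have h1 : a * b' = a' * b := by exact_mod_cast he
  have h2 : b ∣ b' := (h.symm.dvd_of_dvd_mul_left (Dvd.intro_left a' h1.symm))
  have h3 : b' ∣ b := (h'.symm.dvd_of_dvd_mul_left (Dvd.intro_left a h1))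
  have h4 := Nat.dvd_antisymm h2 h3
  subst h4
  exact ⟨Nat.eq_of_mul_eq_mul_right hb h1, rfl⟩

/-! ### from the points to the triples -/

/-- the primes of the radical occur in the ideals -/
theorem rad_le {x : ℚ} {P : Fin 3 → Idl ℚ}
    (hP : Pool.Agent.W223.AK.IsP (∅ : Finset (Pr ℚ)) x P) :
    Real.log (rd (x.num.natAbs * x.den * (x.num + x.den).natAbs) : ℝ) ≤
      Pool.Agent.N906.RS.tr P := by
  classical
  rw [log_rd]
  unfold Pool.Agent.N906.RS.tr
  set U : Finset (Pr ℚ) := univ.biUnion fun l : Fin 3 => (P l).support with hU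
  have hden : (x.den : ℚ) ≠ 0 := by exact_mod_cast x.den_nz
  have hxe : x = (x.num : ℚ) / x.den := (Rat.num_div_den x).symm
  have hxe1 : x + 1 = ((x.num + x.den : ℤ) : ℚ) / x.den := by
    push_cast
    rw [add_div, div_self hden, ← hxe]
  have key : ∀ p ∈ (x.num.natAbs * x.den * (x.num + x.den).natAbs).primeFactors,
      p ∈ U.image pr := by
    intro p hp
    have hpp := Nat.prime_of_mem_primeFactors hp
    obtain ⟨v, rfl⟩ := pr_surj hpp
    refine mem_image.2 ⟨v, ?_, rfl⟩
    have hcop : ¬ ((pr v : ℤ) ∣ x.num ∧ (pr v : ℤ) ∣ (x.den : ℤ)) := by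
      rintro ⟨h1, h2⟩
      have h3 : pr v ∣ Nat.gcd x.num.natAbs x.den :=
        Nat.dvd_gcd (Int.natCast_dvd.1 h1) (Int.natCast_dvd_natCast.1 h2)
      have h4 := x.reduced
      rw [Nat.Coprime] at h4
      rw [h4] at h3
      exact hpp.one_lt.ne' (Nat.dvd_one.1 h3)
    have hne : ∀ l : Fin 3, P l v ≠ 0 → v ∈ U := fun l hl =>
      mem_biUnion.2 ⟨l, mem_univ _, Finsupp.mem_support_iff.2 hl⟩
    have hfd : fv v (x.den : ℚ) = fv v ((x.den : ℤ) : ℚ) := by push_cast; rfl
    by_cases h1 : (pr v : ℤ) ∣ x.num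
    · have h2 : ¬ (pr v : ℤ) ∣ (x.den : ℤ) := fun h => hcop ⟨h1, h⟩
      have h3 : fv v x < 1 := by
        rw [hxe, map_div₀, hfd, fv_one v h2, div_one]
        exact fv_lt v h1
      refine hne 0 fun h0 => ?_
      have h4 := hP.val 0 v (by simp)
      rw [h0] at h4
      simp only [L, Matrix.cons_val_zero, max_eq_right h3.le, Nat.cast_zero, neg_zero, zpow_zero,
        mul_one] at h4
      linarith
    · have hn := fv_one v h1
      by_cases h2 : (pr v : ℤ) ∣ (x.den : ℤ)
      · have h3 : 1 < fv v x := by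
          rw [hxe, map_div₀, hfd, hn]
          have h4 := fv_lt v h2
          have h5 : 0 < fv v ((x.den : ℤ) : ℚ) := (fv v).pos (by exact_mod_cast x.den_nz)
          rw [lt_div_iff₀ h5]
          linarith
        refine hne 1 fun h0 => ?_
        have h4 := hP.val 1 v (by simp)
        rw [h0] at h4
        simp only [L, Matrix.cons_val_one, Matrix.cons_val_zero, map_one, max_eq_left h3.le,
          Nat.cast_zero, neg_zero, zpow_zero, mul_one] at h4
        linarith
      · have hd := fv_one v h2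
        have h3 : (pr v : ℤ) ∣ x.num + x.den := by
          have h4 := Nat.dvd_of_mem_primeFactors hp
          rcases hpp.dvd_mul.1 h4 with h5 | h5
          · rcases hpp.dvd_mul.1 h5 with h6 | h6
            · exact absurd (Int.natCast_dvd.2 h6) h1
            · exact absurd (Int.natCast_dvd_natCast.2 h6) h2
          · exact Int.natCast_dvd.2 h5
        have hx1 : fv v x = 1 := by
          rw [hxe, map_div₀, hfd, hn, hd, div_one]
        have h4 : fv v (x + 1) < 1 := by
          rw [hxe1, map_div₀, hfd, hd, div_one]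
          exact fv_lt v h3
        refine hne 2 fun h0 => ?_
        have h5 := hP.val 2 v (by simp)
        rw [h0, hx1] at h5
        have h6 : L 2 x = x + 1 := rfl
        rw [h6] at h5
        simp only [max_self, Nat.cast_zero, neg_zero, zpow_zero, mul_one] at h5
        linarith
  calc ∑ p ∈ (x.num.natAbs * x.den * (x.num + x.den).natAbs).primeFactors, Real.log (p : ℝ)
      ≤ ∑ p ∈ U.image pr, Real.log (p : ℝ) :=
        Finset.sum_le_sum_of_subset_of_nonneg (fun p hp => key p hp) fun p hp _ => by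
          obtain ⟨v, -, rfl⟩ := mem_image.1 hp
          exact Real.log_nonneg (by exact_mod_cast (pr_prime v).one_lt.le)
    _ = ∑ v ∈ U, Real.log (pr v : ℝ) := Finset.sum_image fun a _ b _ h => pr_inj h
    _ = ∑ v ∈ U, Real.log (Nv v) := Finset.sum_congr rfl fun v _ => by rw [Nv_eq]
    _ ≤ ∑ v ∈ U, ∑ l : Fin 3, (if v ∈ (P l).support then Real.log (Nv v) else 0) := by
        refine Finset.sum_le_sum fun v hv => ?_
        obtain ⟨l, -, hl⟩ := mem_biUnion.1 hv
        have h1 := Finset.single_le_sum (s := univ)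
          (f := fun l : Fin 3 => (if v ∈ (P l).support then Real.log (Nv v) else 0))
          (fun l _ => by
            split_ifs
            · exact (log_Nv_pos v).le
            · exact le_rfl) (mem_univ l)
        simp only [hl, if_true] at h1
        exact h1
    _ = ∑ l : Fin 3, ∑ v ∈ U, (if v ∈ (P l).support then Real.log (Nv v) else 0) :=
        Finset.sum_comm
    _ = ∑ l : Fin 3, rl (P l) := by
        refine Finset.sum_congr rfl fun l _ => ?_
        rw [← Finset.sum_filter]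
        unfold rl
        refine Finset.sum_congr ?_ fun _ _ => rfl
        ext v
        rw [mem_filter]
        exact ⟨fun h => h.2, fun h => ⟨mem_biUnion.2 ⟨l, mem_univ _, h⟩, h⟩⟩

/-- the triple of a point -/
def tri (x : ℚ) : ℕ × ℕ × ℕ :=
  if 0 < x.num then (x.num.natAbs, x.den, x.num.natAbs + x.den)
  else if 0 < x.num + x.den then (x.num.natAbs, x.den - x.num.natAbs, x.den)
  else (x.den, x.num.natAbs - x.den, x.num.natAbs)

/-- the class of a point -/
def kl (x : ℚ) : Fin 3 := if 0 < x.num then 0 else if 0 < x.num + x.den then 1 else 2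

theorem tri_spec {x : ℚ} (hx : Pt x) : 0 < (tri x).1 ∧ 0 < (tri x).2.1 ∧
    Nat.Coprime (tri x).1 (tri x).2.1 ∧ (tri x).1 + (tri x).2.1 = (tri x).2.2 ∧
    (tri x).1 * (tri x).2.1 * (tri x).2.2 = x.num.natAbs * x.den * (x.num + x.den).natAbs ∧
    max x.num.natAbs x.den ≤ (tri x).2.2 ∧ (tri x).2.2 ≤ 2 * max x.num.natAbs x.den := by
  have h0 : x.num ≠ 0 := Rat.num_ne_zero.2 hx.1
  have h1 : x.num + x.den ≠ 0 := by
    intro h
    apply hx.2
    have hden : (x.den : ℚ) ≠ 0 := by exact_mod_cast x.den_nz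
    have h2 : ((x.num + x.den : ℤ) : ℚ) = 0 := by exact_mod_cast h
    push_cast at h2
    have h3 : x = (x.num : ℚ) / x.den := (Rat.num_div_den x).symm
    rw [h3]
    field_simp
    rw [mul_zero]
    exact h2
  have hd := x.den_pos
  have hc : Nat.Coprime x.num.natAbs x.den := x.reduced
  generalize hn : x.num = n at *
  generalize hdd : x.den = d at *
  unfold tri
  rw [hn, hdd]
  split_ifs with h2 h3
  · refine ⟨?_, hd, hc, rfl, ?_, ?_, ?_⟩
    · dsimp only; omega
    · dsimp only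
      have : (n + d).natAbs = n.natAbs + d := by omega
      rw [this]
    · dsimp only; omega
    · dsimp only; omega
  · refine ⟨?_, ?_, ?_, ?_, ?_, ?_, ?_⟩
    · dsimp only; omega
    · dsimp only; omega
    · dsimp only
      exact (Nat.coprime_sub_self_right (by omega)).2 hc
    · dsimp only; omega
    · dsimp only
      have : (n + d).natAbs = d - n.natAbs := by omega
      rw [this]
      ring
    · dsimp only; omega
    · dsimp only; omega
  · refine ⟨?_, ?_, ?_, ?_, ?_, ?_, ?_⟩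
    · dsimp only; omega
    · dsimp only; omega
    · dsimp only
      exact (Nat.coprime_sub_self_right (by omega)).2 hc.symm
    · dsimp only; omega
    · dsimp only
      have : (n + d).natAbs = n.natAbs - d := by omega
      rw [this]
      ring
    · dsimp only; omega
    · dsimp only; omega

theorem tri_inj {x y : ℚ} (hx : Pt x) (hy : Pt y) (hk : kl x = kl y) (h : tri x = tri y) :
    x = y := by
  have h0 : x.num ≠ 0 := Rat.num_ne_zero.2 hx.1
  have h1 : y.num ≠ 0 := Rat.num_ne_zero.2 hy.1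
  have hdx := x.den_pos
  have hdy := y.den_pos
  unfold tri at h
  unfold kl at hk
  have h2 : x.num = y.num ∧ x.den = y.den := by
    split_ifs at hk h with a1 a2 a3 a4 <;>
      simp only [Prod.mk.injEq] at h <;> first
      | (exfalso; revert hk; decide)
      | (constructor <;> omega)
  exact Rat.ext h2.1 h2.2

end Pool.Agent.N521.QP
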